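import Pool.Agent.T6.H62.PP.MainG
import Pool.Agent.T6.H62.PP.Sel
import Pool.Agent.T6.H62.PP.GFin
import Pool.Agent.T6.H62.PP.Val
import Pool.Agent.T6.H62.PP.Emb
import Pool.Agent.T6.H62.PP.Ker
import Pool.Agent.T6.H62.PP.Pt
import Pool.Agent.T6.H62.UB.Final

/-!
# Uniform boundedness over `ℚ` for unicritical polynomials of even degree

* For every `d ≡ 4 mod 6` there is `B` such that for all rational numbers `c` the polynomial
  `x ^ d + c` has at most `B` rational preperiodic points.
* For every even `d ≥ 4` there is `B` such that all polynomials `(A x ^ d + b) / v ^ 3` with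
  integers `A ≠ 0`, `b`, `v ≥ 1`, `gcd (A b, v) = 1`, have at most `B` rational preperiodic points.
* For every even `d ≥ 4` there is `C` such that for all rational numbers `c` the polynomial
  `x ^ d + c` has at most `C (s + 1) log (s + 2)` rational preperiodic points, where `s` is the number
  of the primes `p ≡ 1 mod d` which divide the denominator of `c`.

Proof. Let `x, y` be different rational periodic points of `x ^ d + c`. Then `(x ^ d - y ^ d) / (x - y)`
is a `(d - 1)`-th power up to the primes dividing `d` (the product of these numbers over a common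
period is `1`; at a prime of bad reduction all the differences have valuations divisible by `d - 1`).
If `3 ∣ d - 1` it is a cube, and in general for the second family. For `d ≥ 6` the four points
`1, -1, ζ, ζ⁻¹` for a `d`-th root of unity `ζ` are harmonic, and `x / y` comes from a point of one of
finitely many twists of the curve `y ^ 2 = x ^ 6 + 1` over a number field, for which Mordell's
conjecture is proved in the library (`Pool/Agent/H437R2/Man`); so there are finitely many ratios `x / y`
for all `c` together. For `d = 4` the equation `(x + y) (x ^ 2 + y ^ 2) = δ z ^ 3` has genus one. Here the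
pairs `(x, w)`, `w` fixed, give points of `y ^ 2 = x ^ 3 + 108 δ ^ 2` whose doubles are congruent
modulo all primes of bad reduction, so that their differences have large canonical heights compared
with the heights of the points, and there is a uniform bound by packing in the Mordell-Weil lattice.
The points which are not periodic are treated in the same way. The third part comes from the product
formula for the differences (module `UB`).
-/

set_option autoImplicit false

namespace Pool.Agent.Results.MP_c076ed_nt.AllParametersUnicritical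

open Pool.Agent.T6.H62.PP

theorem result :
    -- all polynomials `x ^ d + c`, `d ≡ 4 mod 6`
    (∀ d : ℕ, d % 6 = 4 → ∃ B : ℕ, ∀ (c : ℚ) (T : Finset ℚ),
      (∀ x ∈ T, ∃ m n : ℕ, m < n ∧
        (fun x : ℚ => x ^ d + c)^[m] x = (fun x : ℚ => x ^ d + c)^[n] x) → T.card ≤ B) ∧
    -- all polynomials `(A x ^ d + b) / v ^ 3`, `d` even
    (∀ d : ℕ, Even d → 4 ≤ d → ∃ B : ℕ, ∀ (A b : ℤ) (v : ℕ), A ≠ 0 → 0 < v →
      IsCoprime (A * b) (v : ℤ) → ∀ T : Finset ℚ,
        (∀ x ∈ T, ∃ m n : ℕ, m < n ∧
          (fun x : ℚ => (A * x ^ d + b) / (v : ℚ) ^ 3)^[m] x =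
            (fun x : ℚ => (A * x ^ d + b) / (v : ℚ) ^ 3)^[n] x) → T.card ≤ B) ∧
    -- `x ^ d + c`, `d` even: only the primes `p ≡ 1 mod d` count
    (∀ d : ℕ, Even d → 4 ≤ d → ∃ C : ℝ, 0 < C ∧ ∀ (c : ℚ) (T : Finset ℚ),
      (∀ x ∈ T, ∃ m n : ℕ, m < n ∧
        (fun x : ℚ => x ^ d + c)^[m] x = (fun x : ℚ => x ^ d + c)^[n] x) →
      (T.card : ℝ) ≤ C * (((c.den.primeFactors.filter (· ≡ 1 [MOD d])).card + 1) *
        Real.log ((c.den.primeFactors.filter (· ≡ 1 [MOD d])).card + 2))) := by
  obtain ⟨hF, hF'⟩ := fin_of sel gfin
  have hP : ∀ d : ℕ, Even d → 4 ≤ d → G.PERStm d := by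
    intro d hde hd
    rcases Nat.lt_or_ge d 6 with h6 | h6
    · have : d = 4 := by
        obtain ⟨e, rfl⟩ := hde
        omega
      subst this
      exact G.per4G emb ker pt
    · exact G.per_of_fin hde h6 hF'
  refine ⟨?_, ?_, ?_⟩
  · intro d hd
    have hde : Even d := ⟨d / 2, by omega⟩
    have hd4 : 4 ≤ d := by omega
    have h3 : 3 ∣ d - 1 := by omega
    exact G.main_c hde hd4 h3 (hP d hde hd4) hF
  · intro d hde hd4
    obtain ⟨B, hB⟩ := G.main_free hde hd4 (hP d hde hd4) hF
    exact ⟨B, fun A b v hA hv hcop T hT =>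
      hB A b v hA hv (hcop.of_mul_left_left) (hcop.of_mul_left_right) T hT⟩
  · intro d hde hd
    obtain ⟨C, hC, hbound⟩ := Pool.Agent.T6.H62.UB.core_bound hd hde
    exact ⟨C, hC, fun c T hT => Pool.Agent.T6.H62.UB.bound_s_aux hd hC hbound c T hT⟩

end Pool.Agent.Results.MP_c076ed_nt.AllParametersUnicritical
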