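import Pool.Agent.T6.H83.FO.Fin

set_option autoImplicit false

/-!
# Finite orbits of rational maps over `ℚ`: a bound polynomial in the number of bad primes

There is an absolute constant `C` such that for every rational map `f = [F : G]` over `ℚ` of any
degree, with potentially good reduction at all primes but `s`, every finite orbit in `ℙ¹(ℚ)` has at
most `C (s + 1) ^ 7` points, and ends in a cycle of length at most `C (s + 1) ^ 3`.

Outline.  Let `p` be a prime of potentially good reduction.  Over an extension `f` does not increase
the chordal distance, and it is almost linear on residue classes; hence if `p` does not divide the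
length of a cycle, the cycle consists of at most `p + 1` equidistant classes of at most `p + 1`
equidistant points.  As there is a small prime outside `T` which does not divide the length, this
bounds the periods.

Replace `f` by an iterate `g` and let `P_0, …, P_m` be an orbit which ends in the fixed point `Z`.
At a prime outside `T` the distance of `P_i` and `P_j`, `i < j`, is the distance of `P_i` and `Z`.
Hence the cross ratios `x_j = [P_j, Z] / [P_j, P_0]` satisfy `|x_j - x_k|_p = |x_j|_p ≥ |x_k|_p` for
`j < k` and all `p` outside `T`.  Put `c_v(j, k) = log max (|x_j|_v, |x_k|_v) - log |x_j - x_k|_v`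
for the places `v` in `T ∪ {∞}`.  By the product formula the sum of the `c_v` is half of an `L¹`
distance of `j` and `k`, a kernel of negative type, while each `c_v` is, up to its diagonal and a
bounded error, a kernel of positive type.  A comparison of these facts on a smallest ball which
contains half of the points gives `m ≤ C (s + 1) ^ 4`.
-/

namespace Pool.Agent.Results.MP_c076ed_nt.FiniteOrbits

open Pool.Agent.H892.PGK (PotGood)
open Pool.Agent.TH856.PG (homMap)

/-- There is an absolute constant `C` such that for all rational binary forms `F`, `G` of the same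
degree `d` (arbitrary) and every finite set `T` of natural numbers such that `[F : G]` has
potentially good reduction at every prime not in `T`: if the orbit of the nonzero vector `v` in
`ℙ¹(ℚ)` is finite (the `n`-th iterate is proportional to the `m`-th iterate for some `m < n`), then
this happens for some `m < n` with `n ≤ C (|T| + 1) ^ 7` and `n - m ≤ C (|T| + 1) ^ 3`. -/
theorem result : ∃ C : ℕ, ∀ d : ℕ, ∀ F G : MvPolynomial (Fin 2) ℚ,
    F.IsHomogeneous d → G.IsHomogeneous d →
    ∀ T : Finset ℕ,
    (∀ (p : ℕ) [Fact p.Prime], p ∉ T → PotGood (Rat.AbsoluteValue.padic p) F G d) →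
    ∀ v : Fin 2 → ℚ, v ≠ 0 →
      (∃ m n : ℕ, m < n ∧ ∃ c : ℚ, c ≠ 0 ∧ (homMap F G)^[n] v = c • (homMap F G)^[m] v) →
      ∃ m n : ℕ, m < n ∧ n ≤ C * (T.card + 1) ^ 7 ∧ n ≤ m + C * (T.card + 1) ^ 3 ∧
        ∃ c : ℚ, c ≠ 0 ∧ (homMap F G)^[n] v = c • (homMap F G)^[m] v := by
  refine ⟨Pool.Agent.T6.H83.FO.CC, ?_⟩
  intro d F G hF hG T hp v hv hpre
  refine Pool.Agent.T6.H83.FO.main hF hG hp hv ?_
  obtain ⟨m, n, hmn, c, _, h⟩ := hpre
  exact ⟨m, n, hmn, c, h⟩

end Pool.Agent.Results.MP_c076ed_nt.FiniteOrbits
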