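import Pool.Agent.T6.H83.RM.Con11

set_option autoImplicit false

/-!
# Rational preperiodic points of rational maps: a bound linear in the degree

There is an absolute constant `C` such that a rational map `f = [F : G]` of degree `d ≥ 2` over `ℚ`
with potentially good reduction at all primes but `s` has at most `C (s + 1) ^ 3 d` preperiodic
points in `ℙ¹(ℚ)`, and at most `C (s + 1) d` of them if `d ≥ 768000 (s + 1) ^ 2`.

Outline.  Let `A` be a finite invariant set, and at every place `v` choose a norm `N_v` on the
plane.  For a set `B` of `(j + 1) d` points the determinant of the matrix of all products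
`F ^ i G ^ (j - i) X ^ r Y ^ (d - 1 - r)` at the points of `B` is the product of a generalised
resultant of `(F, G)` and of the brackets of the pairs of points of `B`.  Hence at every place the
local energy of `B` is bounded below, with defects whose sum over all places is
`(d - 1) ∑ h(x) + j ∑ h(f x)`, where `h` is the height belonging to the norms.  Comparing two sets
for `j = 1` shows that few points have a large height.  For norms which nearly minimise the sum of
the heights, the points of `A` can be divided at every bad prime in two large parts which are far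
from each other, and at the archimedean place no point is near to almost all other points.  For `j`
of the size of `s` the defects of the two parts and of the mixed sets, averaged over all subsets of
`(j + 1) d` points, bound the energy of `A` at a bad prime by a small multiple of the sum of the
heights.  As the sum of all energies is the sum of the heights, the mean height is bounded, so that
two of many points would be too near each other at the archimedean place.  If `d` is not large
the map is replaced by an iterate.
-/

namespace Pool.Agent.Results.MP_c076ed_nt.RationalMapsLinear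

open MvPolynomial Pool.Agent.T6.H83.RM
open Pool.Agent.H892.PGK (PotGood PP fX)
open Pool.Agent.TH856.PG (IsPreper NoZero Pr qav phi_ne_zero card_preper_le)

/-- The places of bad reduction as a set of primes. -/
noncomputable def badPr (T : Finset ℕ) : Finset Pr := T.subtype Nat.Prime

lemma card_badPr (T : Finset ℕ) : (badPr T).card ≤ T.card := by
  unfold badPr
  rw [Finset.card_subtype]
  exact Finset.card_filter_le _ _

lemma potGood_badPr {F G : MvPolynomial (Fin 2) ℚ} {d : ℕ} {T : Finset ℕ}
    (hp : ∀ (p : ℕ) [Fact p.Prime], p ∉ T → PotGood (Rat.AbsoluteValue.padic p) F G d) (p : Pr)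
    (h : p ∉ badPr T) : PotGood (qav p) F G d := by
  have h1 : p.1 ∉ T := fun h2 => h (Finset.mem_subtype.2 h2)
  exact @hp p.1 ⟨p.2⟩ h1

/-- There is an absolute constant `C` such that for every `d ≥ 2`, all rational binary forms `F`,
`G` of degree `d` without common zero over the algebraic closure, and every finite set `T` of
natural numbers such that `[F : G]` has potentially good reduction at every prime not in `T`: every
finite set of preperiodic points of `[F : G]` in `ℙ¹(ℚ)` has at most `C (|T| + 1) ^ 3 d` elements,
and at most `C (|T| + 1) d` elements if `d ≥ 768000 (|T| + 1) ^ 2`. -/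
theorem result : ∃ C : ℕ, ∀ d : ℕ, 2 ≤ d → ∀ F G : MvPolynomial (Fin 2) ℚ,
    F.IsHomogeneous d → G.IsHomogeneous d →
    (∀ x : Fin 2 → AlgebraicClosure ℚ, x ≠ 0 →
      ¬ (MvPolynomial.aeval x F = 0 ∧ MvPolynomial.aeval x G = 0)) →
    ∀ T : Finset ℕ,
    (∀ (p : ℕ) [Fact p.Prime], p ∉ T → PotGood (Rat.AbsoluteValue.padic p) F G d) →
    ∀ S : Finset (Projectivization ℚ (Fin 2 → ℚ)), (∀ P ∈ S, IsPreper F G P) →
      S.card ≤ C * ((T.card + 1) ^ 3 * d) ∧
      (768000 * (T.card + 1) ^ 2 ≤ d → S.card ≤ C * ((T.card + 1) * d)) := by
  classical
  obtain ⟨C₁, h1⟩ := all_degrees2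
  obtain ⟨C₂, h2⟩ := big_degree2
  refine ⟨C₁ + C₂, ?_⟩
  intro d hd F G hF hG h0 T hp S hS
  have hc := card_badPr T
  refine ⟨?_, fun hdT => ?_⟩
  · refine (card_preper_le (B := C₁ * (((badPr T).card + 1) ^ 3 * d)) h0 hF hG
      (fun A hA => h1 d hd F G hF hG h0 (badPr T) (potGood_badPr hp) A hA) S hS).trans ?_
    exact Nat.mul_le_mul (Nat.le_add_right _ _)
      (Nat.mul_le_mul_right _ (Nat.pow_le_pow_left (by omega) 3))
  · have h3 : 768000 * ((badPr T).card + 1) ^ 2 ≤ d := by
      refine le_trans (Nat.mul_le_mul_left _ (Nat.pow_le_pow_left ?_ 2)) hdT
      omega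
    refine (card_preper_le (B := C₂ * (((badPr T).card + 1) * d)) h0 hF hG
      (fun A hA => h2 d F G hF hG h0 (badPr T) (potGood_badPr hp) h3 A hA) S hS).trans ?_
    exact Nat.mul_le_mul (Nat.le_add_left _ _)
      (Nat.mul_le_mul_right _ (by omega))

end Pool.Agent.Results.MP_c076ed_nt.RationalMapsLinear
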