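import Pool.Agent.T6.H83.SH.Main

set_option autoImplicit false

/-!
# Rational preperiodic points of rational maps: at most `d + C (s + 1) ^ 7`

There is an absolute constant `C` such that a rational map `f = [F : G]` of degree `d ≥ 2` over `ℚ`
with potentially good reduction at all primes but `s` has at most `d + C (s + 1) ^ 7` preperiodic
points in `ℙ¹(ℚ)`.  Moreover all but `C (s + 1) ^ 3` of them are periodic, or all but
`C (s + 1) ^ 7` of them lie in one fibre of `f`.

Outline.  At every place choose a norm on the plane; the local energy of two points is the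
logarithm of their distance, and `r(x, y)` is its sum over the places of potentially good reduction,
where `f` and its iterates do not expand: `∑_{x ∈ X} r(y, x) ≤ r(f^k y, b)` for a set `X` which
`f^k` maps to `b`.  The energies at the other places are almost positive semidefinite kernels, with a
diagonal whose size is controlled by the heights.  For norms at the bad places which nearly minimise
the sum of the heights of a set `Z` of more than `C (s + 1) ^ 3` points, this gives: `r` is large on
`Z`, and it is large between any two parts of `Z` of comparable size.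

*Periodic points.*  Let `m` be of the size of `(s + 1) ^ 3`.  If the determinant of the `2 m`
functions `X^i Y^(m-1-i) F`, `X^i Y^(m-1-i) G` at `2 m` periodic points does not vanish, the product
formula and the Laplace expansion bound the good energy of the points by the heights of their
images, and this is impossible as `r(f x, f y) = r(x, y)` for periodic points.  So all determinants
vanish, and a nonzero form `A F + B G` of degree `m - 1 + d` vanishes at all periodic points (if `d`
is at least `m`; for smaller `d` the bound `C (s + 1) ^ 3 d` is enough).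

*The other points.*  If `x` is not periodic and `y` is periodic and not in the same position, then
`r(x, y) = 0`; hence there are few periodic points or few other points.  If there are few periodic
points, then comparing the cross energies of fibres of iterates of `f` shows that all but few points
are mapped by `f` to one point.
-/

namespace Pool.Agent.Results.MP_c076ed_nt.SharpInDegree

open MvPolynomial
open Pool.Agent.T6.H83.SH (main_inv)
open Pool.Agent.H892.PGR (Phi)
open Pool.Agent.H892.PGK (PotGood PP fX)
open Pool.Agent.TH856.PG (IsPreper IsPer NoZero Pr qav phi_ne_zero homMap preper_iter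
  exists_invariant rep_fX fX_iter)

/-- The places of bad reduction as a set of primes. -/
noncomputable def badPr (T : Finset ℕ) : Finset Pr := T.subtype Nat.Prime

lemma card_badPr (T : Finset ℕ) : (badPr T).card ≤ T.card := by
  unfold badPr
  rw [Finset.card_subtype]
  exact Finset.card_filter_le _ _

lemma potGood_badPr {F G : MvPolynomial (Fin 2) ℚ} {d : ℕ} {T : Finset ℕ}
    (hp : ∀ (p : ℕ) [Fact p.Prime], p ∉ T → PotGood (Rat.AbsoluteValue.padic p) F G d) (p : Pr)
    (h : p ∉ badPr T) : PotGood (qav p) F G d := by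
  have h1 : p.1 ∉ T := fun h2 => h (Finset.mem_subtype.2 h2)
  exact @hp p.1 ⟨p.2⟩ h1

/-- a point fixed by an iterate is periodic -/
lemma isPer_of_iter {F G : MvPolynomial (Fin 2) ℚ} {d : ℕ} (hF : F.IsHomogeneous d)
    (hG : G.IsHomogeneous d) (h0 : ∀ v : Fin 2 → ℚ, v ≠ 0 → Phi F G v ≠ 0) {P : PP ℚ} {n : ℕ}
    (hn : 0 < n) (h : (fX F G h0)^[n] P = P) : IsPer F G P := by
  obtain ⟨h1, h2⟩ := fX_iter hF hG h0 P.rep P.rep_nonzero n
  rw [P.mk_rep, h] at h2
  refine ⟨P.rep, P.rep_nonzero, P.mk_rep, n, hn, ?_⟩
  have h3 : Projectivization.mk ℚ P.rep P.rep_nonzero =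
      Projectivization.mk ℚ ((homMap F G)^[n] P.rep) h1 := by
    rw [P.mk_rep]
    exact h2
  obtain ⟨c, hc⟩ := (Projectivization.mk_eq_mk_iff' ℚ _ _ _ _).1 h3.symm
  refine ⟨c, ?_, hc.symm⟩
  rintro rfl
  rw [zero_smul] at hc
  exact h1 hc.symm

/-- There is an absolute constant `C` such that for every `d ≥ 2`, all rational binary forms `F`,
`G` of degree `d` without common zero over the algebraic closure, and every finite set `T` of
natural numbers such that `[F : G]` has potentially good reduction at every prime not in `T`: every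
finite set `S` of preperiodic points of `[F : G]` in `ℙ¹(ℚ)` has at most `d + C (|T| + 1) ^ 7`
elements; and all but at most `C (|T| + 1) ^ 3` elements of `S` are periodic, or all but at most
`C (|T| + 1) ^ 7` elements of `S` are mapped to one point `[w]`. -/
theorem result : ∃ C : ℕ, ∀ d : ℕ, 2 ≤ d → ∀ F G : MvPolynomial (Fin 2) ℚ,
    F.IsHomogeneous d → G.IsHomogeneous d →
    (∀ x : Fin 2 → AlgebraicClosure ℚ, x ≠ 0 →
      ¬ (MvPolynomial.aeval x F = 0 ∧ MvPolynomial.aeval x G = 0)) →
    ∀ T : Finset ℕ,
    (∀ (p : ℕ) [Fact p.Prime], p ∉ T → PotGood (Rat.AbsoluteValue.padic p) F G d) →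
    ∀ S : Finset (Projectivization ℚ (Fin 2 → ℚ)), (∀ P ∈ S, IsPreper F G P) →
      S.card ≤ d + C * (T.card + 1) ^ 7 ∧
      ((∃ S₁ ⊆ S, (∀ P ∈ S₁, IsPer F G P) ∧ S.card ≤ S₁.card + C * (T.card + 1) ^ 3) ∨
      ∃ w : Fin 2 → ℚ, w ≠ 0 ∧ ∃ S₁ ⊆ S, (∀ P ∈ S₁, ∃ t : ℚ, homMap F G P.rep = t • w) ∧
        S.card ≤ S₁.card + C * (T.card + 1) ^ 7) := by
  classical
  obtain ⟨C, h1⟩ := main_inv
  refine ⟨C, ?_⟩
  intro d hd F G hF hG h0 T hp S hS
  have hc := card_badPr T
  obtain ⟨A, hSA, hA⟩ := exists_invariant (fX F G (phi_ne_zero h0)) S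
    (fun P hP => preper_iter hF hG _ (hS P hP))
  obtain ⟨h2, h3⟩ := h1 d hd F G hF hG h0 (badPr T) (potGood_badPr hp) A hA
  have e7 : C * ((badPr T).card + 1) ^ 7 ≤ C * (T.card + 1) ^ 7 :=
    Nat.mul_le_mul_left _ (Nat.pow_le_pow_left (by omega) 7)
  have e3 : C * ((badPr T).card + 1) ^ 3 ≤ C * (T.card + 1) ^ 3 :=
    Nat.mul_le_mul_left _ (Nat.pow_le_pow_left (by omega) 3)
  have hcard := Finset.card_le_card hSA
  -- passing from `A` to `S`
  have hpass : ∀ S₁ ⊆ A, S.card ≤ (S₁ ∩ S).card + (A.card - S₁.card) := by
    intro S₁ hS₁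
    have g1 := Finset.card_sdiff_of_subset hS₁
    have g2 : S \ S₁ ⊆ A \ S₁ := Finset.sdiff_subset_sdiff hSA subset_rfl
    have g3 := Finset.card_le_card g2
    have g4 := Finset.card_inter_add_card_sdiff S S₁
    rw [Finset.inter_comm] at g4
    omega
  refine ⟨by omega, ?_⟩
  rcases h3 with ⟨S₁, hS₁, hper, hle⟩ | ⟨c, S₁, hS₁, hfib, hle⟩
  · left
    refine ⟨S₁ ∩ S, Finset.inter_subset_right, fun P hP => ?_, ?_⟩
    · obtain ⟨n, hn, h⟩ := hper P (Finset.mem_inter.1 hP).1
      exact isPer_of_iter hF hG _ hn h
    · have := hpass S₁ hS₁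
      omega
  · right
    refine ⟨c.rep, c.rep_nonzero, S₁ ∩ S, Finset.inter_subset_right, fun P hP => ?_, ?_⟩
    · obtain ⟨b, hb0, hb⟩ := rep_fX (phi_ne_zero h0) P
      rw [hfib P (Finset.mem_inter.1 hP).1] at hb
      refine ⟨b⁻¹, ?_⟩
      rw [hb, smul_smul, inv_mul_cancel₀ hb0, one_smul]
      rfl
    · have := hpass S₁ hS₁
      omega

end Pool.Agent.Results.MP_c076ed_nt.SharpInDegree
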